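import Pool.Agent.Helper37.KD.DefsC

/-! KD Part I, piece N1 -/

namespace KD.I.N1

open Finset

lemma cosh_add_le (a b : ℝ) (hb : 0 ≤ b) : Real.cosh (a + b) ≤ Real.exp b * Real.cosh a := by
  rw [Real.cosh_eq, Real.cosh_eq]
  have h1 : Real.exp (a + b) = Real.exp b * Real.exp a := by rw [Real.exp_add]; ring
  have h2 : Real.exp (-(a + b)) ≤ Real.exp b * Real.exp (-a) := by
    rw [← Real.exp_add]; apply Real.exp_le_exp.mpr; linarith
  rw [h1]; linarith

lemma cosh_sub_le (a b : ℝ) (hb : 0 ≤ b) : Real.cosh (a - b) ≤ Real.exp b * Real.cosh a := by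
  have := cosh_add_le (-a) b hb
  rw [Real.cosh_neg] at this
  have h2 : Real.cosh (a - b) = Real.cosh (-a + b) := by
    rw [← Real.cosh_neg]; congr 1; ring
  rw [h2]; exact this

lemma exp_le_two (y : ℝ) (h0 : 0 ≤ y) (h1 : y ≤ 1 / 2) : Real.exp y ≤ 1 + 2 * y := by
  have h2 : 1 - y ≤ Real.exp (-y) := by
    have := Real.add_one_le_exp (-y); linarith
  have h3 : Real.exp y * Real.exp (-y) = 1 := by rw [← Real.exp_add]; simp
  have h4 : Real.exp y * (1 - y) ≤ 1 := by
    calc Real.exp y * (1 - y) ≤ Real.exp y * Real.exp (-y) :=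
          mul_le_mul_of_nonneg_left h2 (Real.exp_pos y).le
      _ = 1 := h3
  have h5 : 0 < Real.exp y := Real.exp_pos y
  nlinarith [mul_nonneg h0 (sub_nonneg.mpr h1), mul_nonneg h0 h5.le,
    mul_nonneg (mul_nonneg h0 (sub_nonneg.mpr h1)) h5.le]

/-- the profile `x ↦ cosh (β (N/2 - x))` read off `val` -/
noncomputable def g (N : ℕ) (β : ℝ) (i : ZMod N) : ℝ := Real.cosh (β * ((N : ℝ) / 2 - (i.val : ℝ)))

lemma g_succ (N : ℕ) [NeZero N] (hN3 : 3 ≤ N) (β : ℝ) (i : ZMod N) :
    g N β (i + 1) = Real.cosh (β * ((N : ℝ) / 2 - (i.val : ℝ)) - β) := by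
  have : Fact (1 < N) := ⟨by omega⟩
  unfold g
  by_cases h : i.val + 1 < N
  · have h1 : (i + 1).val = i.val + 1 := by
      rw [ZMod.val_add, ZMod.val_one N]
      exact Nat.mod_eq_of_lt h
    rw [h1]; congr 1; push_cast; ring
  · have hlt := ZMod.val_lt i
    have h2 : i.val + 1 = N := by omega
    have h1 : (i + 1).val = 0 := by
      rw [ZMod.val_add, ZMod.val_one N, h2, Nat.mod_self]
    have h3 : (i.val : ℝ) = (N : ℝ) - 1 := by
      have : ((i.val + 1 : ℕ) : ℝ) = (N : ℝ) := by rw [h2]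
      push_cast at this; linarith
    rw [h1, h3, ← Real.cosh_neg]; congr 1; push_cast; ring

lemma g_neg (N : ℕ) [NeZero N] (β : ℝ) (i : ZMod N) : g N β (-i) = g N β i := by
  unfold g
  rw [ZMod.neg_val]
  by_cases h : i = 0
  · simp [h]
  · rw [if_neg h]
    have hlt := (ZMod.val_lt i).le
    rw [Nat.cast_sub hlt, ← Real.cosh_neg]; congr 1; ring

lemma g_pred (N : ℕ) [NeZero N] (hN3 : 3 ≤ N) (β : ℝ) (i : ZMod N) (hi : i ≠ 0) :
    g N β (i - 1) = Real.cosh (β * ((N : ℝ) / 2 - (i.val : ℝ)) + β) := by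
  have h1 : i - 1 = -(-i + 1) := by ring
  rw [h1, g_neg, g_succ N hN3]
  rw [ZMod.neg_val, if_neg hi, Nat.cast_sub (ZMod.val_lt i).le, ← Real.cosh_neg]
  congr 1; ring

lemma one_valMinAbs (N : ℕ) [NeZero N] (hN3 : 3 ≤ N) : (1 : ZMod N).valMinAbs = 1 := by
  have : Fact (1 < N) := ⟨by omega⟩
  rw [ZMod.valMinAbs_def_pos, ZMod.val_one N, if_pos (by omega)]
  rfl

lemma neg_one_valMinAbs (N : ℕ) [NeZero N] (hN3 : 3 ≤ N) : (-1 : ZMod N).valMinAbs = -1 := by
  have : Fact (1 < N) := ⟨by omega⟩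
  rw [ZMod.valMinAbs_def_pos, ZMod.neg_val, if_neg (one_ne_zero), ZMod.val_one N,
    if_neg (by omega)]
  omega

theorem theta_exists (N : ℕ) [NeZero N] (hN : Odd N) (hN3 : 3 ≤ N) (R : ℝ) (hR : 1 ≤ R) :
    ∃ θ : ZMod N → ℝ, (∀ i, 0 < θ i) ∧ (∑ i, θ i = 1) ∧ (∀ i, θ (-i) = θ i) ∧
      (∀ i, θ i - R ^ 2 * (θ (i + 1) + θ (i - 1) - 2 * θ i) = if i = 0 then 1 else 0) ∧
      (∀ i j, θ (i + j) ≤ Real.exp ((j.valMinAbs.natAbs : ℝ) / R) * θ i) ∧
      (∑ i, θ i * Real.exp ((i.valMinAbs.natAbs : ℝ) / (2 * R)) ≤ 4) := by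
  have hR0 : 0 < R := by linarith
  set β : ℝ := 2 * Real.arsinh (1 / (2 * R)) with hβ
  have hβ0 : 0 < β := by
    have : 0 < Real.arsinh (1 / (2 * R)) := Real.arsinh_pos_iff.mpr (by positivity)
    linarith
  have hch : 2 * R ^ 2 * (Real.cosh β - 1) = 1 := by
    rw [hβ, Real.cosh_two_mul, Real.cosh_sq, Real.sinh_arsinh]
    field_simp
    ring
  have hβR : β ≤ 1 / R := by
    have h0 : 0 ≤ Real.arsinh (1 / (2 * R)) := by linarith
    have h1 : Real.arsinh (1 / (2 * R)) ≤ Real.sinh (Real.arsinh (1 / (2 * R))) :=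
      Real.self_le_sinh_iff.mpr h0
    rw [Real.sinh_arsinh] at h1
    have h2 : 2 * (1 / (2 * R)) = 1 / R := by field_simp
    linarith
  -- the unnormalised resolvent equation
  have hres : ∀ i : ZMod N, i ≠ 0 →
      g N β i - R ^ 2 * (g N β (i + 1) + g N β (i - 1) - 2 * g N β i) = 0 := by
    intro i hi
    rw [g_succ N hN3, g_pred N hN3 β i hi]
    unfold g
    set x := β * ((N : ℝ) / 2 - (i.val : ℝ))
    rw [Real.cosh_sub, Real.cosh_add]
    have : Real.cosh x - R ^ 2 * (Real.cosh x * Real.cosh β - Real.sinh x * Real.sinh β +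
        (Real.cosh x * Real.cosh β + Real.sinh x * Real.sinh β) - 2 * Real.cosh x)
        = Real.cosh x * (1 - 2 * R ^ 2 * (Real.cosh β - 1)) := by ring
    rw [this, hch]; ring
  set K : ℝ := g N β 0 - R ^ 2 * (g N β (0 + 1) + g N β (0 - 1) - 2 * g N β 0) with hK
  have hKpos : 0 < K := by
    have h1 : g N β (0 - 1) = g N β (0 + 1) := by
      rw [← g_neg]; congr 1; ring
    have h2 : g N β (0 + 1) ≤ g N β 0 := by
      rw [g_succ N hN3]
      unfold g
      rw [ZMod.val_zero]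
      rw [Real.cosh_le_cosh]
      have hN' : (3 : ℝ) ≤ N := by exact_mod_cast hN3
      rw [abs_of_nonneg, abs_of_nonneg]
      · linarith
      · push_cast; have : 0 ≤ (N : ℝ) / 2 - 0 := by linarith
        positivity
      · have : β * ((N : ℝ) / 2 - ((0 : ℕ) : ℝ)) - β = β * ((N : ℝ) / 2 - 1) := by push_cast; ring
        rw [this]; have : 0 ≤ (N : ℝ) / 2 - 1 := by linarith
        positivity
    have h3 : 0 < g N β 0 := Real.cosh_pos _
    rw [hK, h1]
    nlinarith [mul_nonneg (sq_nonneg R) (sub_nonneg.mpr h2)]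
  set θ : ZMod N → ℝ := fun i => g N β i / K with hθ
  have hθpos : ∀ i, 0 < θ i := fun i => div_pos (Real.cosh_pos _) hKpos
  have hθres : ∀ i, θ i - R ^ 2 * (θ (i + 1) + θ (i - 1) - 2 * θ i) = if i = 0 then 1 else 0 := by
    intro i
    have e : θ i - R ^ 2 * (θ (i + 1) + θ (i - 1) - 2 * θ i)
        = (g N β i - R ^ 2 * (g N β (i + 1) + g N β (i - 1) - 2 * g N β i)) / K := by
      simp only [hθ]; ring
    rw [e]
    by_cases hi : i = 0
    · subst hi; rw [if_pos rfl, ← hK, div_self hKpos.ne']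
    · rw [if_neg hi, hres i hi, zero_div]
  have hθneg : ∀ i, θ (-i) = θ i := by
    intro i; simp only [hθ, g_neg]
  have hshift : ∀ (f : ZMod N → ℝ) (a : ZMod N), ∑ i, f (i + a) = ∑ i, f i := fun f a =>
    Equiv.sum_comp (Equiv.addRight a) f
  have hshift' : ∀ (f : ZMod N → ℝ) (a : ZMod N), ∑ i, f (i - a) = ∑ i, f i := fun f a =>
    Equiv.sum_comp (Equiv.subRight a) f
  have hsum : ∑ i, θ i = 1 := by
    have h1 : ∑ i, (θ i - R ^ 2 * (θ (i + 1) + θ (i - 1) - 2 * θ i)) = 1 := by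
      rw [sum_congr rfl (fun i _ => hθres i)]
      simp
    rw [sum_sub_distrib, ← mul_sum, sum_sub_distrib, sum_add_distrib, hshift θ 1, hshift' θ 1,
      ← mul_sum] at h1
    linarith
  have hstepP : ∀ i, θ (i + 1) ≤ Real.exp (1 / R) * θ i := by
    intro i
    simp only [hθ]
    rw [← mul_div_assoc]
    apply div_le_div_of_nonneg_right _ hKpos.le
    rw [g_succ N hN3]
    calc Real.cosh (β * ((N : ℝ) / 2 - (i.val : ℝ)) - β) ≤ Real.exp β * _ :=
          cosh_sub_le _ _ hβ0.le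
      _ ≤ Real.exp (1 / R) * g N β i :=
          mul_le_mul_of_nonneg_right (Real.exp_le_exp.mpr hβR) (Real.cosh_pos _).le
  have hstepM : ∀ i, θ (i - 1) ≤ Real.exp (1 / R) * θ i := by
    intro i
    have h := hstepP (-i)
    have e : -i + 1 = -(i - 1) := by ring
    rw [e, hθneg, hθneg] at h
    exact h
  have hP : ∀ (n : ℕ) (i : ZMod N), θ (i + n) ≤ Real.exp ((n : ℝ) / R) * θ i := by
    intro n
    induction n with
    | zero => intro i; simp
    | succ n ih =>
      intro i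
      have h1 := hstepP (i + n)
      have h2 := ih i
      have e : i + ((n + 1 : ℕ) : ZMod N) = i + n + 1 := by push_cast; ring
      have e2 : Real.exp (((n + 1 : ℕ) : ℝ) / R) = Real.exp (1 / R) * Real.exp ((n : ℝ) / R) := by
        rw [← Real.exp_add]; congr 1; push_cast; ring
      rw [e, e2]
      calc θ (i + n + 1) ≤ Real.exp (1 / R) * θ (i + n) := h1
        _ ≤ Real.exp (1 / R) * (Real.exp ((n : ℝ) / R) * θ i) :=
            mul_le_mul_of_nonneg_left h2 (Real.exp_pos _).le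
        _ = _ := by ring
  have hM : ∀ (n : ℕ) (i : ZMod N), θ (i - n) ≤ Real.exp ((n : ℝ) / R) * θ i := by
    intro n i
    have h := hP n (-i)
    have e : -i + (n : ZMod N) = -(i - n) := by ring
    rw [e, hθneg, hθneg] at h
    exact h
  refine ⟨θ, hθpos, hsum, hθneg, hθres, ?_, ?_⟩
  · intro i j
    have hj : ((j.valMinAbs : ℤ) : ZMod N) = j := ZMod.coe_valMinAbs j
    rcases Int.natAbs_eq j.valMinAbs with h | h
    · have e : i + j = i + (j.valMinAbs.natAbs : ℕ) := by
        conv_lhs => rw [← hj, h]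
        simp
      rw [e]; exact hP _ _
    · have e : i + j = i - (j.valMinAbs.natAbs : ℕ) := by
        conv_lhs => rw [← hj, h]
        rw [Int.cast_neg, Int.cast_natCast]
        ring
      rw [e]; exact hM _ _
  · -- exponential moment
    set γ : ℝ := 1 / (2 * R) with hγ
    have hγ0 : 0 < γ := by positivity
    set f : ZMod N → ℝ := fun i => Real.cosh (γ * ((i.valMinAbs : ℤ) : ℝ)) with hf
    have hfpos : ∀ i, 0 < f i := fun i => Real.cosh_pos _
    have hcoshγ : 2 * R ^ 2 * (Real.cosh γ - 1) ≤ 1 / 2 := by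
      have h1 : Real.cosh γ ≤ Real.exp (γ ^ 2 / 2) := Real.cosh_le_exp_half_sq γ
      have hγ2 : R ^ 2 * γ ^ 2 = 1 / 4 := by rw [hγ]; field_simp; norm_num
      have hγs : γ ^ 2 ≤ 1 / 4 := by
        have : 1 ≤ R ^ 2 := by nlinarith
        nlinarith [sq_nonneg γ]
      have h2 : Real.exp (γ ^ 2 / 2) ≤ 1 + 2 * (γ ^ 2 / 2) :=
        exp_le_two _ (by positivity) (by linarith)
      have h3 : Real.cosh γ - 1 ≤ γ ^ 2 := by linarith
      nlinarith [mul_le_mul_of_nonneg_left h3 (sq_nonneg R)]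
    have hmono : ∀ (i b : ZMod N) , f (i + b) ≤
        Real.cosh (γ * (((i.valMinAbs + b.valMinAbs : ℤ)) : ℝ)) := by
      intro i b
      simp only [hf]
      rw [Real.cosh_le_cosh, abs_mul, abs_mul]
      apply mul_le_mul_of_nonneg_left _ (abs_nonneg _)
      have h := ZMod.natAbs_valMinAbs_add_le i b
      rw [← Int.cast_abs, ← Int.cast_abs, Int.abs_eq_natAbs, Int.abs_eq_natAbs]
      exact_mod_cast h
    have hsup : ∀ i, (1 / 2) * f i ≤ f i - R ^ 2 * (f (i + 1) + f (i - 1) - 2 * f i) := by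
      intro i
      have h1 := hmono i 1
      have h2 := hmono i (-1)
      rw [one_valMinAbs N hN3] at h1
      rw [neg_one_valMinAbs N hN3, ← sub_eq_add_neg] at h2
      have h3 : Real.cosh (γ * (((i.valMinAbs + 1 : ℤ)) : ℝ)) +
          Real.cosh (γ * (((i.valMinAbs + -1 : ℤ)) : ℝ)) = 2 * Real.cosh γ * f i := by
        have e1 : γ * (((i.valMinAbs + 1 : ℤ)) : ℝ) = γ * ((i.valMinAbs : ℤ) : ℝ) + γ := by
          push_cast; ring
        have e2 : γ * (((i.valMinAbs + -1 : ℤ)) : ℝ) = γ * ((i.valMinAbs : ℤ) : ℝ) - γ := by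
          push_cast; ring
        rw [e1, e2, Real.cosh_add, Real.cosh_sub]
        simp only [hf]
        ring
      have h4 : f (i + 1) + f (i - 1) ≤ 2 * Real.cosh γ * f i := by linarith
      have h5 : R ^ 2 * (f (i + 1) + f (i - 1) - 2 * f i) ≤ (1 / 2) * f i := by
        calc R ^ 2 * (f (i + 1) + f (i - 1) - 2 * f i)
            ≤ R ^ 2 * (2 * Real.cosh γ * f i - 2 * f i) :=
              mul_le_mul_of_nonneg_left (by linarith) (sq_nonneg R)
          _ = 2 * R ^ 2 * (Real.cosh γ - 1) * f i := by ring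
          _ ≤ (1 / 2) * f i := mul_le_mul_of_nonneg_right hcoshγ (hfpos i).le
      linarith
    have hdual : ∑ i, θ i * (f i - R ^ 2 * (f (i + 1) + f (i - 1) - 2 * f i)) = 1 := by
      have h1 : ∑ i, f i * (θ i - R ^ 2 * (θ (i + 1) + θ (i - 1) - 2 * θ i)) = 1 := by
        rw [sum_congr rfl (fun i _ => by rw [hθres i])]
        simp only [mul_ite, mul_one, mul_zero, sum_ite_eq', mem_univ, if_true]
        simp only [hf]
        simp
      have hA : ∑ i, θ i * f (i + 1) = ∑ i, f i * θ (i - 1) := by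
        rw [← hshift' (fun i => θ i * f (i + 1)) 1]
        apply sum_congr rfl; intro i _
        have : i - 1 + 1 = i := by ring
        simp only [this]; ring
      have hB : ∑ i, θ i * f (i - 1) = ∑ i, f i * θ (i + 1) := by
        rw [← hshift (fun i => θ i * f (i - 1)) 1]
        apply sum_congr rfl; intro i _
        have : i + 1 - 1 = i := by ring
        simp only [this]; ring
      have e1 : ∑ i, θ i * (f i - R ^ 2 * (f (i + 1) + f (i - 1) - 2 * f i))
          = (1 + 2 * R ^ 2) * ∑ i, θ i * f i - R ^ 2 * (∑ i, θ i * f (i + 1))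
            - R ^ 2 * (∑ i, θ i * f (i - 1)) := by
        rw [mul_sum, mul_sum, mul_sum, ← sum_sub_distrib, ← sum_sub_distrib]
        apply sum_congr rfl; intro i _; ring
      have e2 : ∑ i, f i * (θ i - R ^ 2 * (θ (i + 1) + θ (i - 1) - 2 * θ i))
          = (1 + 2 * R ^ 2) * ∑ i, θ i * f i - R ^ 2 * (∑ i, f i * θ (i - 1))
            - R ^ 2 * (∑ i, f i * θ (i + 1)) := by
        rw [mul_sum, mul_sum, mul_sum, ← sum_sub_distrib, ← sum_sub_distrib]
        apply sum_congr rfl; intro i _; ring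
      rw [e1, hA, hB, ← e2, h1]
    have hhalf : ∑ i, θ i * f i ≤ 2 := by
      have h1 : ∑ i, θ i * ((1 / 2) * f i) ≤ 1 :=
        le_trans (sum_le_sum (fun i _ => mul_le_mul_of_nonneg_left (hsup i) (hθpos i).le))
          (le_of_eq hdual)
      have h2 : ∑ i, θ i * ((1 / 2) * f i) = (1 / 2) * ∑ i, θ i * f i := by
        rw [mul_sum]; apply sum_congr rfl; intro i _; ring
      linarith
    calc ∑ i, θ i * Real.exp ((i.valMinAbs.natAbs : ℝ) / (2 * R))
        ≤ ∑ i, 2 * (θ i * f i) := by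
          apply sum_le_sum
          intro i _
          have h1 : Real.exp ((i.valMinAbs.natAbs : ℝ) / (2 * R)) ≤ 2 * f i := by
            have e : f i = Real.cosh ((i.valMinAbs.natAbs : ℝ) / (2 * R)) := by
              simp only [hf]
              rw [← Real.cosh_abs, abs_mul, abs_of_pos hγ0, ← Int.cast_abs, Int.abs_eq_natAbs]
              congr 1
              rw [hγ, Int.cast_natCast]; ring
            rw [e, Real.cosh_eq]
            have := Real.exp_pos (-((i.valMinAbs.natAbs : ℝ) / (2 * R)))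
            linarith
          calc θ i * Real.exp ((i.valMinAbs.natAbs : ℝ) / (2 * R)) ≤ θ i * (2 * f i) :=
                mul_le_mul_of_nonneg_left h1 (hθpos i).le
            _ = 2 * (θ i * f i) := by ring
      _ = 2 * ∑ i, θ i * f i := by rw [mul_sum]
      _ ≤ 4 := by linarith

end KD.I.N1
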